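import Pool.Agent.Work.MP_959bfa_wn.Interface

namespace Wn

open Finset

/-- pairs such that a chosen point of the first lies in the second -/
theorem corn_fst {ι : Type} (R : ι → Bx) (J : Finset ι) (w : ℕ) (hd : DepthLe R J w)
    (X Y : ι → ℝ) :
    (fl (J ×ˢ J) (fun p => In (R p.2) (X p.1) (Y p.1))).card ≤ w * J.card := by
  classical
  have hm : ∀ p ∈ fl (J ×ˢ J) (fun p => In (R p.2) (X p.1) (Y p.1)), p.1 ∈ J := by
    intro p hp
    exact (mem_product.1 (mem_fl.1 hp).1).1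
  rw [card_eq_sum_card_fiberwise hm, mul_comm, ← smul_eq_mul]
  refine sum_le_card_nsmul _ _ _ fun i _ => ?_
  refine le_trans ?_ (hd (X i) (Y i))
  refine card_le_card_of_injOn (fun p => p.2) ?_ ?_
  · intro p hp
    rw [mem_coe, mem_filter] at hp
    obtain ⟨h1, rfl⟩ := hp
    rw [mem_coe, mem_fl]
    exact ⟨(mem_product.1 (mem_fl.1 h1).1).2, (mem_fl.1 h1).2⟩
  · intro p hp q hq h
    rw [mem_coe, mem_filter] at hp hq
    exact Prod.ext (hp.2.trans hq.2.symm) h

/-- pairs such that a chosen point of the second lies in the first -/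
theorem corn_snd {ι : Type} (R : ι → Bx) (J : Finset ι) (w : ℕ) (hd : DepthLe R J w)
    (X Y : ι → ℝ) :
    (fl (J ×ˢ J) (fun p => In (R p.1) (X p.2) (Y p.2))).card ≤ w * J.card := by
  refine le_trans ?_ (corn_fst R J w hd X Y)
  refine card_le_card_of_injOn Prod.swap ?_ ?_
  · intro p hp
    rw [mem_coe, mem_fl] at hp ⊢
    exact ⟨mem_product.2 ⟨(mem_product.1 hp.1).2, (mem_product.1 hp.1).1⟩, hp.2⟩
  · intro p _ q _ h
    exact Prod.swap_injective h

/-- two members which meet without crossing: one contains a corner of the other -/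
theorem corn_geo {ι : Type} (R : ι → Bx) (i j : ι) (hi : Ne (R i)) (hj : Ne (R j))
    (h : Nb R i j) :
    ((In (R j) (R i).l (R i).b ∨ In (R j) (R i).l (R i).t) ∨
      (In (R j) (R i).r (R i).b ∨ In (R j) (R i).r (R i).t)) ∨
    ((In (R i) (R j).l (R j).b ∨ In (R i) (R j).l (R j).t) ∨
      (In (R i) (R j).r (R j).b ∨ In (R i) (R j).r (R j).t)) := by
  obtain ⟨_, h2, h3, h4⟩ := h
  unfold Dj at h2
  push Not at h2
  obtain ⟨x, y, hxi, hxj⟩ := h2
  unfold In at hxi hxj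
  obtain ⟨a1, a2, a3, a4⟩ := hxi
  obtain ⟨b1, b2, b3, b4⟩ := hxj
  have e1 : (R j).l ≤ (R i).r := b1.trans a2
  have e2 : (R i).l ≤ (R j).r := a1.trans b2
  have e3 : (R j).b ≤ (R i).t := b3.trans a4
  have e4 : (R i).b ≤ (R j).t := a3.trans b4
  obtain ⟨n1, n2⟩ := hi
  obtain ⟨m1, m2⟩ := hj
  -- position of the ends of the first coordinate
  by_cases hA : (R j).l ≤ (R i).l ∨ (R i).r ≤ (R j).r
  · by_cases hC : (R j).b ≤ (R i).b ∨ (R i).t ≤ (R j).t
    · left
      rcases hA with hA | hA <;> rcases hC with hC | hC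
      · exact Or.inl (Or.inl ⟨hA, e2, hC, e4⟩)
      · exact Or.inl (Or.inr ⟨hA, e2, e3, hC⟩)
      · exact Or.inr (Or.inl ⟨e1, hA, hC, e4⟩)
      · exact Or.inr (Or.inr ⟨e1, hA, e3, hC⟩)
    · push Not at hC
      by_cases hA' : (R i).l ≤ (R j).l ∨ (R j).r ≤ (R i).r
      · right
        rcases hA' with hA' | hA'
        · exact Or.inl (Or.inl ⟨hA', e1, hC.1.le, e3⟩)
        · exact Or.inr (Or.inl ⟨e2, hA', hC.1.le, e3⟩)
      · push Not at hA'
        exact absurd ⟨hA'.1, hA'.2, hC.1, hC.2⟩ h3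
  · push Not at hA
    by_cases hC' : (R i).b ≤ (R j).b ∨ (R j).t ≤ (R i).t
    · right
      rcases hC' with hC' | hC'
      · exact Or.inl (Or.inl ⟨hA.1.le, e1, hC', e3⟩)
      · exact Or.inl (Or.inr ⟨hA.1.le, e1, e4, hC'⟩)
    · push Not at hC'
      exact absurd ⟨hA.1, hA.2, hC'.1, hC'.2⟩ h4

theorem CORN : stmt_CORN := by
  classical
  intro ι R J w hne hd
  have hsub : fl (J ×ˢ J) (fun p => Nb R p.1 p.2) ⊆
      (((fl (J ×ˢ J) (fun p => In (R p.2) (R p.1).l (R p.1).b)) ∪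
        (fl (J ×ˢ J) (fun p => In (R p.2) (R p.1).l (R p.1).t))) ∪
       ((fl (J ×ˢ J) (fun p => In (R p.2) (R p.1).r (R p.1).b)) ∪
        (fl (J ×ˢ J) (fun p => In (R p.2) (R p.1).r (R p.1).t)))) ∪
      (((fl (J ×ˢ J) (fun p => In (R p.1) (R p.2).l (R p.2).b)) ∪
        (fl (J ×ˢ J) (fun p => In (R p.1) (R p.2).l (R p.2).t))) ∪
       ((fl (J ×ˢ J) (fun p => In (R p.1) (R p.2).r (R p.2).b)) ∪
        (fl (J ×ˢ J) (fun p => In (R p.1) (R p.2).r (R p.2).t)))) := by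
    intro p hp
    rw [mem_fl] at hp
    have h1 := mem_product.1 hp.1
    have h2 := corn_geo R p.1 p.2 (hne _ h1.1) (hne _ h1.2) hp.2
    simp only [mem_union, mem_fl]
    rcases h2 with ((h | h) | (h | h)) | ((h | h) | (h | h))
    · exact Or.inl (Or.inl (Or.inl ⟨hp.1, h⟩))
    · exact Or.inl (Or.inl (Or.inr ⟨hp.1, h⟩))
    · exact Or.inl (Or.inr (Or.inl ⟨hp.1, h⟩))
    · exact Or.inl (Or.inr (Or.inr ⟨hp.1, h⟩))
    · exact Or.inr (Or.inl (Or.inl ⟨hp.1, h⟩))
    · exact Or.inr (Or.inl (Or.inr ⟨hp.1, h⟩))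
    · exact Or.inr (Or.inr (Or.inl ⟨hp.1, h⟩))
    · exact Or.inr (Or.inr (Or.inr ⟨hp.1, h⟩))
  have c1 := corn_fst R J w hd (fun i => (R i).l) (fun i => (R i).b)
  have c2 := corn_fst R J w hd (fun i => (R i).l) (fun i => (R i).t)
  have c3 := corn_fst R J w hd (fun i => (R i).r) (fun i => (R i).b)
  have c4 := corn_fst R J w hd (fun i => (R i).r) (fun i => (R i).t)
  have d1 := corn_snd R J w hd (fun i => (R i).l) (fun i => (R i).b)
  have d2 := corn_snd R J w hd (fun i => (R i).l) (fun i => (R i).t)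
  have d3 := corn_snd R J w hd (fun i => (R i).r) (fun i => (R i).b)
  have d4 := corn_snd R J w hd (fun i => (R i).r) (fun i => (R i).t)
  refine (card_le_card hsub).trans ?_
  refine (card_union_le _ _).trans ?_
  have u1 := (card_union_le
    ((fl (J ×ˢ J) (fun p => In (R p.2) (R p.1).l (R p.1).b)) ∪
        (fl (J ×ˢ J) (fun p => In (R p.2) (R p.1).l (R p.1).t)))
    ((fl (J ×ˢ J) (fun p => In (R p.2) (R p.1).r (R p.1).b)) ∪
        (fl (J ×ˢ J) (fun p => In (R p.2) (R p.1).r (R p.1).t))))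
  have u2 := (card_union_le
    ((fl (J ×ˢ J) (fun p => In (R p.1) (R p.2).l (R p.2).b)) ∪
        (fl (J ×ˢ J) (fun p => In (R p.1) (R p.2).l (R p.2).t)))
    ((fl (J ×ˢ J) (fun p => In (R p.1) (R p.2).r (R p.2).b)) ∪
        (fl (J ×ˢ J) (fun p => In (R p.1) (R p.2).r (R p.2).t))))
  have v1 := card_union_le (fl (J ×ˢ J) (fun p => In (R p.2) (R p.1).l (R p.1).b))
    (fl (J ×ˢ J) (fun p => In (R p.2) (R p.1).l (R p.1).t))
  have v2 := card_union_le (fl (J ×ˢ J) (fun p => In (R p.2) (R p.1).r (R p.1).b))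
    (fl (J ×ˢ J) (fun p => In (R p.2) (R p.1).r (R p.1).t))
  have v3 := card_union_le (fl (J ×ˢ J) (fun p => In (R p.1) (R p.2).l (R p.2).b))
    (fl (J ×ˢ J) (fun p => In (R p.1) (R p.2).l (R p.2).t))
  have v4 := card_union_le (fl (J ×ˢ J) (fun p => In (R p.1) (R p.2).r (R p.2).b))
    (fl (J ×ˢ J) (fun p => In (R p.1) (R p.2).r (R p.2).t))
  have e : 8 * w * J.card = w * J.card + w * J.card + (w * J.card + w * J.card) +
    (w * J.card + w * J.card + (w * J.card + w * J.card)) := by ring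
  rw [e]
  linarith

end Wn
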