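import Pool.Agent.Work.MP_959bfa_wn.Interface

namespace Wn

open Finset

theorem RED (hC : stmt_CORN) : stmt_RED := by
  classical
  intro ι R J w hne hd
  have hc := hC ι R J w hne hd
  set J' : Finset ι := fl J (fun i => (fl J (fun j => Nb R i j)).card ≤ 16 * w) with hJ'
  set K : Finset ι := fl J (fun i => ¬ (fl J (fun j => Nb R i j)).card ≤ 16 * w) with hK
  have hJK : J'.card + K.card = J.card := by
    rw [← card_union_of_disjoint]
    · congr 1
      ext i
      rw [mem_union, hJ', hK, mem_fl, mem_fl]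
      tauto
    · rw [disjoint_left]
      intro i hi hi'
      rw [hJ', mem_fl] at hi
      rw [hK, mem_fl] at hi'
      exact hi'.2 hi.2
  have hsum : (fl (J ×ˢ J) (fun p => Nb R p.1 p.2)).card
      = ∑ i ∈ J, (fl J (fun j => Nb R i j)).card := by
    have hm : ∀ p ∈ fl (J ×ˢ J) (fun p => Nb R p.1 p.2), p.1 ∈ J := by
      intro p hp
      exact (mem_product.1 (mem_fl.1 hp).1).1
    rw [card_eq_sum_card_fiberwise hm]
    refine sum_congr rfl fun i hi => ?_
    refine card_bij (fun p _ => p.2) ?_ ?_ ?_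
    · intro p hp
      rw [mem_filter] at hp
      obtain ⟨h1, rfl⟩ := hp
      rw [mem_fl]
      exact ⟨(mem_product.1 (mem_fl.1 h1).1).2, (mem_fl.1 h1).2⟩
    · intro p hp q hq h
      rw [mem_filter] at hp hq
      exact Prod.ext (hp.2.trans hq.2.symm) h
    · intro j hj
      rw [mem_fl] at hj
      refine ⟨(i, j), ?_, rfl⟩
      rw [mem_filter, mem_fl]
      exact ⟨⟨mem_product.2 ⟨hi, hj.1⟩, hj.2⟩, rfl⟩
  have hKs : K.card * (16 * w + 1) ≤ ∑ i ∈ J, (fl J (fun j => Nb R i j)).card := by
    have h1 : ∑ i ∈ K, (fl J (fun j => Nb R i j)).card ≤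
        ∑ i ∈ J, (fl J (fun j => Nb R i j)).card :=
      sum_le_sum_of_subset (fl_subset _ _)
    refine le_trans ?_ h1
    rw [← smul_eq_mul]
    refine card_nsmul_le_sum _ _ _ fun i hi => ?_
    rw [hK, mem_fl] at hi
    omega
  refine ⟨J', fl_subset _ _, ?_, ?_⟩
  · rcases Nat.eq_zero_or_pos K.card with h0 | h0
    · omega
    · have h1 : K.card * (16 * w + 1) ≤ 8 * w * J.card := by
        rw [← hsum] at hKs
        exact hKs.trans hc
      by_contra h2
      have h3 : J.card + 1 ≤ 2 * K.card := by omega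
      have h4 : 8 * w * J.card ≤ 8 * w * (2 * K.card) := Nat.mul_le_mul_left _ (by omega)
      have h5 : K.card * (16 * w + 1) = 8 * w * (2 * K.card) + K.card := by ring
      omega
  · intro i hi
    have h1 := hi
    rw [hJ', mem_fl] at h1
    refine le_trans (card_le_card ?_) h1.2
    intro j hj
    rw [mem_fl] at hj ⊢
    exact ⟨fl_subset _ _ hj.1, hj.2⟩

end Wn
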